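import Mathlib
import Pool.Agent.T2H15.K3.Three

set_option autoImplicit false

/-!
# Over three letters the only long abelian squares that are needed are the three words `a a a a a a`

There is an infinite ternary word `w` such that every abelian square of period `n ≥ 3` in it has
period exactly `3` and consists of six equal letters. So `w` has no abelian square of period at
least four, and of the abelian squares of period three only `000000`, `111111`, `222222` can occur.

The word is `f (z)`, where `z` is the word over eight letters of `Pool.Agent.H549R3` and `f` is a new
533-uniform map to the three letter alphabet. The kernel checks that an abelian square of period at
least four in `f (z)` would come from an additive square, or from a realisation of one of two further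
templates, in `z`; there are none (`Pool.Agent.H549R3`). The factors of length six are checked
directly.
-/

namespace Pool.Agent.Results.MP_cabd9e_co.OnlySixthPowers

/-- There is an infinite word `w` over `{0,1,2}` such that, whenever two consecutive blocks of equal
length `n ≥ 3`, the first one starting at position `i`, contain each letter the same number of
times, `n = 3` and the six letters of the two blocks are equal. -/
theorem result :
    ∃ w : ℕ → Fin 3, ∀ i n : ℕ, 3 ≤ n →
      (∀ a : Fin 3,
          ((Finset.range n).filter (fun k => w (i + k) = a)).card =
          ((Finset.range n).filter (fun k => w (i + n + k) = a)).card) →
      n = 3 ∧ ∀ j < 6, w (i + j) = w i :=
  Pool.Agent.T2H15.K3.Three.main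

end Pool.Agent.Results.MP_cabd9e_co.OnlySixthPowers
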